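import Pool.Agent.ISO.StmtsR
import Pool.Agent.ISO.Defs

/-!
# Row ROO of squad ISO: output of block R
-/

set_option autoImplicit false

namespace Pool.Agent.ISO.R.H8

open Finset Pool.Agent.Helper6_Mono Pool.Agent.Helper32_OMP Pool.Agent.ISO Pool.Agent.ISO.R

theorem map_self {σ : Type} (g : MvPolynomial σ ℂ) :
    MvPolynomial.map (algebraMap ℂ ℂ) g = g := by
  have h : (algebraMap ℂ ℂ) = RingHom.id ℂ := rfl
  rw [h, MvPolynomial.map_id]

/-- row ROO -/
theorem roo (h1 : RfnStmt) : RooStmt := by
  classical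
  intro σ ι _ _ f g a ha c hc hn hf T p hfT hg0 _ hA x hx
  refine h1 σ ι hn f a ha c hc hf (T : Set (σ → ℂ)) T.finite_toSet ?_ p g c hc ?_ hA x hx
  · intro z hz
    have h2 := hfT z fun q hq h => hz (by rw [h]; exact hq)
    simpa only [map_self] using h2
  · intro z hz
    have h2 := hg0 z fun q hq h => hz (by
      rw [Finset.mem_singleton] at hq
      rw [h, hq]
      rfl)
    simpa only [map_self] using h2

end Pool.Agent.ISO.R.H8
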