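import Pool.Agent.Helper69_ISO.VEC
import Pool.Agent.Helper45_ISO.OPA
import Pool.Agent.Helper5_ISO.CNJ
import Pool.Agent.Helper14_ISO.BAB
import Pool.Agent.Helper26_ISO.APN
import Pool.Agent.Helper52_ISO.KRV
import Pool.Agent.Helper67_ISO.PWI
import Pool.Agent.Helper95_ISO.EXT
import Pool.Agent.Helper51_ISO.TRP
import Pool.Agent.Helper7_ISO.MON
import Pool.Agent.Helper19_ISO.TRA
import Pool.Agent.Helper99_ISO.SNP
import Pool.Agent.Helper5_ISO.RTQ
import Pool.Agent.Helper35_ISO.RTM
import Pool.Agent.Helper45_ISO.RFN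
import Pool.Agent.Helper23_ISO.APM
import Pool.Agent.Helper8_ISO.ROO

/-!
# Squad ISO, block R: assembly
-/

set_option autoImplicit false

namespace Pool.Agent.ISO.R.H8

open Pool.Agent.ISO Pool.Agent.ISO.R

theorem trpAll : TrpStmt :=
  H51.trp (H26.apn (H14.bab (H5.cnj H69.vec H45.opa) H45.opa)) H52.krv (H95.ext H67.pwi)

/-- **Block R is proved.** -/
theorem rooAll : RooStmt :=
  roo (H45.rfn trpAll (H99.snp trpAll H19.tra H7.mon) (H35.rtm H5.rtq))

/-- the extension of the constants -/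
theorem apmAll : ApmStmt := H23.apm

end Pool.Agent.ISO.R.H8
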