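import Pool.Agent.ISO.StmtsZ
import Pool.Agent.ISO.StmtsM

/-!
# Row ZED of squad ISO: output of block Z
-/

set_option autoImplicit false

namespace Pool.Agent.ISO.Z.H8

open PowerSeries Finset Pool.Agent.Helper6_Mono Pool.Agent.Helper32_OMP Pool.Agent.ISO
  Pool.Agent.ISO.Z

/-- the value of the model at the origin -/
theorem apx_zero {k σ : Type} [Field k] {f f1 : MvPolynomial σ k} {p : σ → k} (h : Apx f p f1) :
    MvPolynomial.eval (0 : σ → k) f1 = MvPolynomial.eval p f := by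
  obtain ⟨ψ, u, hψ, -, hu, hE⟩ := h 1
  have h1 := hE 0 (by simp)
  have h2 : MvPolynomial.constantCoeff (u * MvPolynomial.aeval ψ f - f1) = 0 := h1
  rw [map_sub, map_mul, hu, one_mul, sub_eq_zero] at h2
  have h3 : MvPolynomial.constantCoeff (MvPolynomial.aeval ψ f) = MvPolynomial.eval p f := by
    have h4 : (MvPolynomial.constantCoeff : MvPolynomial σ k →+* k).comp
        ((MvPolynomial.aeval ψ : MvPolynomial σ k →ₐ[k] MvPolynomial σ k) :
          MvPolynomial σ k →+* MvPolynomial σ k) = MvPolynomial.eval p := by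
      apply MvPolynomial.ringHom_ext
      · intro a
        simp
      · intro l
        simp [hψ]
    exact RingHom.congr_fun h4 f
  rw [h3] at h2
  rw [h2]
  have h5 : MvPolynomial.eval (0 : σ → k) = MvPolynomial.constantCoeff := by
    apply MvPolynomial.ringHom_ext
    · intro a
      simp
    · intro l
      simp
  rw [h5]

/-- row ZED -/
theorem zed (h1 : OumStmt) (h2 : ZloStmt) (h3 : ZasStmt) : ZedStmt := by
  classical
  intro k _ _ σ ι _ _ f a ha c hc T hT f1 S hS
  obtain ⟨T', hT'⟩ : ∃ T' : Finset (σ → k), ∀ p, p ∈ T' ↔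
      p ∈ T ∧ ∃ i, MvPolynomial.eval p (f i) = 0 :=
    ⟨T.filter fun p => ∃ i, MvPolynomial.eval p (f i) = 0, fun p => Finset.mem_filter⟩
  obtain ⟨F, hF⟩ : ∃ F : MvPolynomial σ k, F = MvPolynomial.C c * ∏ i, f i ^ a i := ⟨_, rfl⟩
  have hout : SncOut f T' := by
    intro z hz
    by_cases h : ∀ p ∈ T, z ≠ fun l => algebraMap k ℂ (p l)
    · exact hT z h
    · push Not at h
      obtain ⟨p, hp, hzp⟩ := h
      have hno : ∀ i, MvPolynomial.eval p (f i) ≠ 0 := by
        intro i hi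
        exact hz p ((hT' p).2 ⟨hp, i, hi⟩) hzp
      have hempty : IsEmpty {i // MvPolynomial.eval z
          (MvPolynomial.map (algebraMap k ℂ) (f i)) = 0} := by
        refine ⟨fun ⟨i, h4⟩ => ?_⟩
        rw [hzp, MvPolynomial.eval_map] at h4
        have h5 : MvPolynomial.eval₂ (algebraMap k ℂ) (fun l => algebraMap k ℂ (p l)) (f i)
            = algebraMap k ℂ (MvPolynomial.eval p (f i)) :=
          (MvPolynomial.eval₂_comp (algebraMap k ℂ) p (f i)).symm
        rw [h5] at h4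
        exact hno i ((map_eq_zero (algebraMap k ℂ)).1 h4)
      exact linearIndependent_empty_type
  have hcard : Nat.card σ = Fintype.card σ := Nat.card_eq_fintype_card
  have key := h3 k σ ι f a ha c hc T' hout
    (RingPart.chi (MvPolynomial.C c * ∏ i, f i ^ a i))
    (fun m hm hω => (RingPart.val_eq (RingPart.pres_jet m hm hω)).symm) S ?_
  · obtain ⟨P, hP, hZ⟩ := key
    refine ⟨P ∪ T'.biUnion S, fun q hq => ?_, hZ⟩
    rw [Finset.mem_union, Finset.mem_biUnion] at hq
    rcases hq with hq | ⟨p, hp, hq⟩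
    · exact ⟨(hP q hq).1, Or.inl (hP q hq).2⟩
    · obtain ⟨hp1, hp2⟩ := (hT' p).1 hp
      exact ⟨(hS p hp1 hp2).2.1 q hq, Or.inr ⟨p, hp1, hp2, hq⟩⟩
  · intro p hp s _ hs
    obtain ⟨hp1, hp2⟩ := (hT' p).1 hp
    obtain ⟨hA, hS1, hS2⟩ := hS p hp1 hp2
    have hFp : MvPolynomial.eval p (MvPolynomial.C c * ∏ i, f i ^ a i) = 0 := by
      obtain ⟨i, hi⟩ := hp2
      rw [map_mul, map_prod, Finset.prod_eq_zero (Finset.mem_univ i), mul_zero]
      rw [map_pow, hi, zero_pow (ha i).ne']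
    refine h1 k σ _ (f1 p) p hFp ((apx_zero hA).trans hFp) (S p) hS1 hS2 s ?_
    intro m hm hω
    rw [hs m hm, hcard, h2 k σ ι _ _ (RingPart.chi (MvPolynomial.C c * ∏ i, f i ^ a i)) f a c
      (f1 p) p hA m hm hω]

end Pool.Agent.ISO.Z.H8
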