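import Pool.Agent.Helper1_ISO.MVI
import Pool.Agent.Helper64_ISO.MVZ
import Pool.Agent.Helper89_ISO.MVU
import Pool.Agent.Helper13_ISO.MVL
import Pool.Agent.Helper39_ISO.MVP
import Pool.Agent.Helper36_ISO.MVE
import Pool.Agent.Helper60_ISO.RHO
import Pool.Agent.Helper30_ISO.ZRM
import Pool.Agent.Helper95_ISO.PAP
import Pool.Agent.Helper81_ISO.OUM
import Pool.Agent.Helper52_ISO.ZCG
import Pool.Agent.Helper30_ISO.ZPB
import Pool.Agent.Helper2_ISO.ZPT
import Pool.Agent.Helper50_ISO.ZLO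
import Pool.Agent.Helper42_ISO.ZAS
import Pool.Agent.Helper8_ISO.ZED

/-!
# Squad ISO, block Z: assembly
-/

set_option autoImplicit false

namespace Pool.Agent.ISO.Z.H8

open Pool.Agent.ISO Pool.Agent.ISO.Z

theorem oumAll : OumStmt :=
  ISO.H81.oum (ISO.H60.rho ISO.H1.mvi ISO.H64.mvz ISO.H89.mvu ISO.H13.mvl ISO.H39.mvp ISO.H36.mve)
    ISO.H30.zrm ISO.H95.pap

/-- **Block Z is proved.** -/
theorem zedAll : ZedStmt :=
  zed oumAll (H50.zlo (H2.zpt H52.zcg H30.zpb)) H42.zas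

end Pool.Agent.ISO.Z.H8
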